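import Mathlib
import Pool.Agent.Sx28.UT.Null

set_option autoImplicit false

open Set Filter Topology Metric MeasureTheory
open Pool.Agent.Results.MP_725b87_an.NotPluripolar

namespace Pool.Agent.Results.MP_725b87_an.ExceptionalSetNull

/-!
# The exceptional set of a plurisubharmonic function has Lebesgue measure zero

`IsPSH`, `HasUpperTest` and `exceptional` are the definitions of `NotPluripolar`.

Method. Let `B` be a ball of radius `R` whose closure is contained in `Ω` and let `k` be large. For
every `c` in the ball of radius `R / 2` the function `φ - k |. - c| ^ 2` has a maximum over the closure
of `B` at a point `z` near `c`. The mean value inequality on a circle shows that the relation between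
`z` and `c` is such that `|c - c'| ≤ K |z - z'|` with an absolute constant `K` (not depending on
`k`, `φ`, `R` or `n`). So the touching points `z` have at least the proportion `(2 K) ^ (- 2 n)` of the
measure of `B`. As this holds for every ball, the set of the points without touching paraboloid has no
point of density.
-/

/-- Positive answer to Q1, on every domain `Ω` of `ℂ ^ n` (in particular on every bounded pseudoconvex
domain): the exceptional set `E(φ)` of every plurisubharmonic function `φ` on `Ω` that is not
identically `-∞` has Lebesgue measure zero. -/
theorem result (n : ℕ) (Ω : Set (Cn n)) (hΩ : IsOpen Ω) (hconn : IsConnected Ω)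
    (φ : Cn n → EReal) (hφ : IsPSH Ω φ) (hne : ∃ z ∈ Ω, φ z ≠ ⊥) :
    volume (exceptional Ω φ) = 0 :=
  Pool.Agent.Sx28.UT.exceptional_null hΩ hconn.isPreconnected hφ hne

end Pool.Agent.Results.MP_725b87_an.ExceptionalSetNull
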